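import Pool.Agent.W743.HP.Stm

/-!
# HP-MODE: the recursion in one mode
-/

set_option autoImplicit false

namespace Pool.Agent.W672.HP

open Pool.Agent.W743.HP

theorem sh_succ (f : ℕ → ℝ) (j : ℕ) : sh f (j + 1) = f j := by
  unfold sh
  rw [if_neg (Nat.succ_ne_zero j), Nat.add_sub_cancel]

theorem sh_zero (f : ℕ → ℝ) : sh f 0 = 0 := by
  unfold sh
  rw [if_pos rfl]

/-- uniqueness for the homogeneous recursion -/
theorem uniq (N : ℕ) (α y : ℝ) (X : ℕ → ℝ) (h0 : X 0 = 0)
    (h : ∀ j : ℕ, ((N : ℝ) + j + 1) * (j + 1) * X (j + 1) = 2 * y * ((N + j) * j * X j) -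
      y ^ 2 * sh (fun i => ((N : ℝ) + i) * i * X i) j - α * y * X j) : ∀ j, X j = 0 := by
  have aux : ∀ j : ℕ, X j = 0 ∧ X (j + 1) = 0 := by
    intro j
    induction j with
    | zero =>
      refine ⟨h0, ?_⟩
      have h1 := h 0
      rw [sh_zero, h0] at h1
      have h2 : ((N : ℝ) + 1) * X 1 = 0 := by
        have h3 := h1
        norm_num at h3
        rcases h3 with h3 | h3
        · rw [h3]; ring
        · rw [h3]; ring
      have h4 : ((N : ℝ) + 1) ≠ 0 := by positivity
      exact (mul_eq_zero.1 h2).resolve_left h4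
    | succ j ih =>
      refine ⟨ih.2, ?_⟩
      have h1 := h (j + 1)
      rw [sh_succ, ih.1, ih.2] at h1
      have h2 : (((N : ℝ) + ((j + 1 : ℕ) : ℝ) + 1) * (((j + 1 : ℕ) : ℝ) + 1)) *
          X (j + 1 + 1) = 0 := by
        rw [h1]; ring
      have h4 : (((N : ℝ) + ((j + 1 : ℕ) : ℝ) + 1) * (((j + 1 : ℕ) : ℝ) + 1)) ≠ 0 := by
        positivity
      exact (mul_eq_zero.1 h2).resolve_left h4
  intro j
  exact (aux j).1

theorem mode (hbd : S_BD) : S_MODE := by
  intro N α y p U M _ _ hM hE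
  obtain ⟨_, hc⟩ := hbd
  -- the recursion for `uh`
  have hu : ∀ j : ℕ, ((j : ℝ) + 1) ^ 2 * uh α y (j + 1) = 2 * y * ((j : ℝ) ^ 2 * uh α y j) -
      y ^ 2 * sh (fun i => (i : ℝ) ^ 2 * uh α y i) j - α * y * uh α y j := by
    intro j
    have h1 := hc 0 α j
    unfold uh
    rcases j with _ | j
    · rw [sh_zero] at h1 ⊢
      push_cast at h1 ⊢
      linear_combination (y / G 0 α (y / 2)) * h1
    · rw [sh_succ] at h1 ⊢
      push_cast at h1 ⊢
      linear_combination (y ^ (j + 2) / G 0 α (y / 2)) * h1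
  -- the recursion for `c N`
  have hv : ∀ j : ℕ, ((N : ℝ) + j + 1) * (j + 1) * (c N α (j + 1) * y ^ (j + 1)) =
      2 * y * ((N + j) * j * (c N α j * y ^ j)) -
      y ^ 2 * sh (fun i => ((N : ℝ) + i) * i * (c N α i * y ^ i)) j -
      α * y * (c N α j * y ^ j) := by
    intro j
    have h1 := hc N α j
    rcases j with _ | j
    · rw [sh_zero] at h1 ⊢
      push_cast at h1 ⊢
      linear_combination y * h1
    · rw [sh_succ] at h1 ⊢
      push_cast at h1 ⊢
      linear_combination (y ^ (j + 2)) * h1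
  have hN : ((N : ℝ) + 1) ≠ 0 := by positivity
  have key := uniq N α y
    (fun j => U j - 2 * p / (N + 1) * (j * uh α y j) - U 0 * (c N α j * y ^ j)) (by
      have : c N α 0 = 1 := rfl
      simp [this]) (by
      intro j
      have h1 := hu j
      have h2 := hv j
      have h3 := hE j
      have hM0 := hM j
      rcases j with _ | _ | j
      · simp only [sh_zero, sh_succ, hM, mh] at h1 h2 h3 ⊢
        push_cast at h1 h2 h3 ⊢
        field_simp at h3 ⊢
        linear_combination (-1) * h3 - (N + 1) * U 0 * h2 - 2 * p * (N + 1) * h1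
      · simp only [sh_zero, sh_succ, hM, mh] at h1 h2 h3 ⊢
        push_cast at h1 h2 h3 ⊢
        field_simp at h3 ⊢
        linear_combination (-1) * h3 - (N + 1) * U 0 * h2 - 2 * p * (N + 2) * h1
      · simp only [sh_zero, sh_succ, hM, mh] at h1 h2 h3 ⊢
        push_cast at h1 h2 h3 ⊢
        field_simp at h3 ⊢
        linear_combination (-1) * h3 - (N + 1) * U 0 * h2 - 2 * p * (N + j + 3) * h1)
  intro j
  have := key j
  linarith

end Pool.Agent.W672.HP
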